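import Pool.Agent.H97.SD.Targets

/-! Module CLO of the project SD: properties of the closure. -/

set_option autoImplicit false

open Finset

namespace Pool.Agent.H20.SD

open Pool.Agent.H97.SD

theorem out_anti {N M k : ℕ} (σ : Fin M → Fin k → Fin N) (c : Fin M) {X X' : Finset (Fin N)}
    (h : X ⊆ X') : out σ c X' ≤ out σ c X := by
  unfold out
  refine Finset.card_le_card ?_
  intro i hi
  rw [Finset.mem_filter] at hi ⊢
  exact ⟨hi.1, fun h' => hi.2 (h h')⟩

theorem VJ_mono {N M k : ℕ} (σ : Fin M → Fin k → Fin N) {J J' : Finset (Fin M)}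
    (h : J ⊆ J') : VJ σ J ⊆ VJ σ J' :=
  Finset.biUnion_subset_biUnion_of_subset_left _ h

theorem mem_cl {N M k : ℕ} (σ : Fin M → Fin k → Fin N) (r : ℕ) (X : Finset (Fin N)) (c : Fin M) :
    c ∈ cl σ r X ↔ ∀ J, Closed σ r X J → c ∈ J := by
  classical
  unfold cl
  rw [Finset.mem_filter]
  exact ⟨fun h => h.2, fun h => ⟨Finset.mem_univ _, h⟩⟩

theorem cl_subset {N M k : ℕ} (σ : Fin M → Fin k → Fin N) (r : ℕ) (X : Finset (Fin N))
    {J : Finset (Fin M)} (h : Closed σ r X J) : cl σ r X ⊆ J := fun c hc =>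
  (mem_cl σ r X c).1 hc J h

theorem closed_cl {N M k : ℕ} (σ : Fin M → Fin k → Fin N) (r : ℕ) (X : Finset (Fin N)) :
    Closed σ r X (cl σ r X) := by
  intro c hc
  rw [mem_cl] at hc
  push Not at hc
  obtain ⟨J, hJ, hcJ⟩ := hc
  exact le_trans (hJ c hcJ)
    (out_anti σ c (Finset.union_subset_union_right (VJ_mono σ (cl_subset σ r X hJ))))

theorem cl_mono {N M k : ℕ} (σ : Fin M → Fin k → Fin N) (r : ℕ) {X X' : Finset (Fin N)}
    (h : X ⊆ X') : cl σ r X ⊆ cl σ r X' := by
  intro c hc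
  rw [mem_cl] at hc ⊢
  intro J hJ
  refine hc J ?_
  intro d hd
  exact le_trans (hJ d hd) (out_anti σ d (Finset.union_subset_union_left h))

theorem pf_CLO : P_CLO := by
  intro N M k σ r
  refine ⟨closed_cl σ r, fun X X' h => cl_mono σ r h, ?_, ?_⟩
  · intro X Z hZ
    refine Finset.Subset.antisymm ?_ (cl_mono σ r Finset.subset_union_left)
    refine cl_subset σ r _ ?_
    intro c hc
    have h1 := closed_cl σ r X c hc
    have h2 : X ∪ Z ∪ VJ σ (cl σ r X) = X ∪ VJ σ (cl σ r X) := by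
      rw [Finset.union_assoc, Finset.union_eq_right.2 hZ]
    rw [h2]
    exact h1
  · intro hrk
    have h1 : Closed σ r (∅ : Finset (Fin N)) ∅ := by
      intro c _
      have h2 : out σ c (∅ ∪ VJ σ (∅ : Finset (Fin M))) = k := by
        unfold out VJ
        simp
      rw [h2]
      exact hrk
    exact Finset.subset_empty.1 (cl_subset σ r _ h1)

end Pool.Agent.H20.SD
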