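import Pool.Agent.H97.SD.Targets

/-! Module GAM of the project SD: the game. -/

set_option autoImplicit false

open Finset

namespace Pool.Agent.H20.SD

open Pool.Agent.H97.SD

theorem hp_empty {N a b : ℕ} (hab : 2 ≤ a * b) :
    Hp (∅ : Clause (BV N a b)) = ∅ := by
  unfold Hp
  rw [Finset.filter_eq_empty_iff]
  intro j _
  have h1 : (univ.filter (fun u : Fin a × Fin b =>
      (j, u) ∉ (∅ : Clause (BV N a b)).image Prod.fst)) = univ := by
    simp
  rw [h1, Finset.card_univ, Fintype.card_prod, Fintype.card_fin, Fintype.card_fin]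
  omega

theorem pf_GAM (hCLO : P_CLO) (hPHA : P_PHA) : P_GAM := by
  classical
  intro N M k a b σ h r p L m D P ρ q nx α hr hrk hp hab hE hS h0 hρ hD hα
  have key : ∀ u : ℕ, u ≤ m →
      (∃ C ∈ P, ∃ (β : ℕ → Bool) (i : ℕ) (O : Finset (Fin N)), i ≤ L ∧ O.card ≤ m * p ∧
        Comp α nx C β i O ∧ p ≤ (cl σ r (UB nx C β i ∪ O)).card) ∨
      ∃ C ∈ P, ∃ (x : BV N a b → Bool) (O : Finset (Fin N)), ρ C + u * L ≤ D ∧
        O.card ≤ u * p ∧ Inv σ h r p α x O (Hp C) C := by
    intro u
    induction u with
    | zero =>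
      intro _
      right
      refine ⟨∅, h0, α, ∅, ?_, ?_, ?_⟩
      · omega
      · simp
      · have hcl : cl σ r (Hp (∅ : Clause (BV N a b)) ∪ (∅ : Finset (Fin N))) = ∅ := by
          rw [hp_empty hab, Finset.union_empty]
          exact (hCLO N M k σ r).2.2.2 hrk
        refine ⟨?_, ⟨?_, ?_⟩, Finset.Subset.refl _, ?_, ?_⟩
        · intro l hl
          exact absurd hl (Finset.notMem_empty l)
        · intro v _
          rfl
        · intro j hj
          exact absurd hj (Finset.notMem_empty j)
        · rw [hcl, Finset.card_empty]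
          omega
        · intro c hc
          rw [hcl] at hc
          exact absurd hc (Finset.notMem_empty c)
    | succ u ih =>
      intro hu
      rcases ih (by omega) with h1 | ⟨C, hC, x, O, hρC, hO, hI⟩
      · exact Or.inl h1
      · have hup : (u + 1) * p ≤ m * p := Nat.mul_le_mul_right p hu
        have hup' : (u + 1) * p = u * p + p := by ring
        rcases hPHA N M k a b σ h r p L P ρ q nx α x O C hr hE hS hα hC hI with
          ⟨β, i, O', hi, hO', hcomp, hp'⟩ | ⟨C', x', O', hC', hρ', hO', hI'⟩
        · left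
          exact ⟨C, hC, β, i, O', hi, by omega, hcomp, hp'⟩
        · right
          refine ⟨C', hC', x', O', ?_, by omega, hI'⟩
          have h3 : (u + 1) * L = u * L + L := by ring
          omega
  rcases key m le_rfl with h1 | ⟨C, _, x, O, hρC, _, _⟩
  · exact h1
  · exfalso
    omega

end Pool.Agent.H20.SD
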