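import Pool.Agent.H20.SD.CLO

/-! Module GEN of the project SD: subsets of the closure with few places outside `X`. -/

set_option autoImplicit false

open Finset

namespace Pool.Agent.H20.SD

open Pool.Agent.H97.SD

theorem gen_strong {N M k : ℕ} (σ : Fin M → Fin k → Fin N) (r : ℕ) (X : Finset (Fin N)) :
    ∀ q : ℕ, q ≤ (cl σ r X).card →
      ∃ J : Finset (Fin M), J ⊆ cl σ r X ∧ J.card = q ∧ (VJ σ J \ X).card ≤ r * q := by
  classical
  intro q
  induction q with
  | zero =>
    intro _
    refine ⟨∅, Finset.empty_subset _, rfl, ?_⟩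
    unfold VJ
    simp
  | succ q ih =>
    intro hq
    obtain ⟨J, hJ, hcard, hV⟩ := ih (by omega)
    have hnc : ¬ Closed σ r X J := by
      intro hc
      have h1 := Finset.card_le_card (cl_subset σ r X hc)
      omega
    unfold Closed at hnc
    push Not at hnc
    obtain ⟨c, hcJ, hc⟩ := hnc
    have hccl : c ∈ cl σ r X := by
      by_contra hn
      have h1 := closed_cl σ r X c hn
      have h2 : out σ c (X ∪ VJ σ (cl σ r X)) ≤ out σ c (X ∪ VJ σ J) :=
        out_anti σ c (Finset.union_subset_union_right (VJ_mono σ hJ))
      omega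
    refine ⟨insert c J, Finset.insert_subset hccl hJ, ?_, ?_⟩
    · rw [Finset.card_insert_of_notMem hcJ, hcard]
    · have hsub : VJ σ (insert c J) \ X ⊆ (VJ σ J \ X) ∪
          (univ.filter (fun i : Fin k => σ c i ∉ X ∪ VJ σ J)).image (σ c) := by
        intro j hj
        rw [Finset.mem_sdiff] at hj
        obtain ⟨hj1, hj2⟩ := hj
        unfold VJ at hj1
        rw [Finset.mem_biUnion] at hj1
        obtain ⟨d, hd, hjd⟩ := hj1
        rw [Finset.mem_union]
        by_cases hjV : j ∈ VJ σ J
        · left
          exact Finset.mem_sdiff.2 ⟨hjV, hj2⟩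
        · right
          have hdc : d = c := by
            rcases Finset.mem_insert.1 hd with h | h
            · exact h
            · exfalso
              apply hjV
              unfold VJ
              rw [Finset.mem_biUnion]
              exact ⟨d, h, hjd⟩
          rw [hdc] at hjd
          obtain ⟨i, _, hi⟩ := Finset.mem_image.1 hjd
          rw [Finset.mem_image]
          refine ⟨i, ?_, hi⟩
          rw [Finset.mem_filter]
          refine ⟨Finset.mem_univ _, ?_⟩
          rw [hi, Finset.mem_union]
          rintro (h | h)
          · exact hj2 h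
          · exact hjV h
      have h1 : ((univ.filter (fun i : Fin k => σ c i ∉ X ∪ VJ σ J)).image (σ c)).card ≤
          out σ c (X ∪ VJ σ J) := Finset.card_image_le
      have h2 := Finset.card_le_card hsub
      have h3 := Finset.card_union_le (VJ σ J \ X)
        ((univ.filter (fun i : Fin k => σ c i ∉ X ∪ VJ σ J)).image (σ c))
      have h4 : r * (q + 1) = r * q + r := by ring
      omega

theorem pf_GEN (_hCLO : P_CLO) : P_GEN := by
  intro N M k σ r q X hq
  obtain ⟨J, _, h1, h2⟩ := gen_strong σ r X q hq
  exact ⟨J, h1, h2⟩

end Pool.Agent.H20.SD
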