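import Pool.Agent.H97.SD.Targets

/-! Module HAL of the project SD: private places by Hall's theorem. -/

set_option autoImplicit false

open Finset

namespace Pool.Agent.H20.SD

open Pool.Agent.H97.SD

theorem pf_HAL : P_HAL := by
  classical
  intro N M k σ p r hN hE S R hS hout
  let t : {c // c ∈ S} → Finset (Fin N) := fun c => univ.image (σ c.1) \ R
  have hall : ∀ S' : Finset {c // c ∈ S}, S'.card ≤ (S'.biUnion t).card := by
    intro S'
    by_contra hlt
    push Not at hlt
    have hcard : (S'.image (fun c => c.1)).card = S'.card :=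
      Finset.card_image_of_injective _ Subtype.val_injective
    have hsub : S'.image (fun c => c.1) ⊆ S := by
      intro c hc
      rw [Finset.mem_image] at hc
      obtain ⟨d, _, rfl⟩ := hc
      exact d.2
    have hle : (S'.image (fun c => c.1)).card ≤ p :=
      le_trans (Finset.card_le_card hsub) hS
    obtain ⟨c, hc, hw⟩ := hE (S'.image (fun c => c.1)) hle (S'.biUnion t) (by rw [hcard]; exact hlt)
    rw [Finset.mem_image] at hc
    obtain ⟨d, hd, rfl⟩ := hc
    have h1 : out σ d.1 R ≤ wt σ d.1 (S'.biUnion t) := by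
      unfold out wt
      refine Finset.card_le_card ?_
      intro i hi
      rw [Finset.mem_filter] at hi ⊢
      refine ⟨hi.1, ?_⟩
      rw [Finset.mem_biUnion]
      refine ⟨d, hd, ?_⟩
      exact Finset.mem_sdiff.2 ⟨Finset.mem_image_of_mem _ (Finset.mem_univ _), hi.2⟩
    have h2 := hout d.1 d.2
    omega
  obtain ⟨f, hf, hft⟩ := (Finset.all_card_le_biUnion_card_iff_exists_injective t).1 hall
  refine ⟨fun c => if h : c ∈ S then f ⟨c, h⟩ else ⟨0, hN⟩, ?_, ?_⟩
  · intro c hc d hd hcd
    have hc' : c ∈ S := hc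
    have hd' : d ∈ S := hd
    simp only [hc', hd', dif_pos] at hcd
    exact congrArg Subtype.val (hf hcd)
  · intro c hc
    have h1 := hft ⟨c, hc⟩
    have h2 := Finset.mem_sdiff.1 h1
    obtain ⟨i, _, hi⟩ := Finset.mem_image.1 h2.1
    simp only [hc, dif_pos]
    exact ⟨⟨i, hi⟩, h2.2⟩

end Pool.Agent.H20.SD
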