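import Pool.Agent.H97.SD.Targets

/-! Module PU of the project SD: the upper bound, numerically. -/

set_option autoImplicit false

open Finset

namespace Pool.Agent.H20.SD

open Pool.Agent.H97.SD

theorem pf_PU : P_PU := by
  intro A hA
  refine ⟨4, by norm_num, ?_⟩
  intro n w a ha hw hn N k hN hk
  have haA : 0 < a * A := Nat.mul_pos (by omega) (by omega)
  have hNn : N * (a * A) ≤ n := by rw [hN]; exact Nat.div_mul_le_self n (a * A)
  have hkw : k * (a * A) ≤ w := by rw [hk]; exact Nat.div_mul_le_self w (a * A)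
  have hkw' : k * a * A ≤ w := by rw [Nat.mul_assoc]; exact hkw
  have h2A : a * 2 ≤ a * A := Nat.mul_le_mul_left a hA
  have hN2 : N * (a * 2) ≤ n := le_trans (Nat.mul_le_mul_left N h2A) hNn
  have hk2 : k * 2 ≤ w := by
    refine le_trans ?_ hkw
    refine Nat.mul_le_mul_left k ?_
    omega
  have hNle : N ≤ n := by
    refine le_trans ?_ hN2
    exact Nat.le_mul_of_pos_right N (by omega)
  have haN : a * (N + 1) ≤ n := by
    have h1 : N * (a * 2) = 2 * (a * N) := by ring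
    have h2 : a * (N + 1) = a * N + a := by ring
    omega
  refine ⟨?_, ?_, ?_⟩
  · calc a * ((N + 1) * (k * a * A)) = (a * (N + 1)) * (k * a * A) := by ring
      _ ≤ n * w := Nat.mul_le_mul haN hkw'
  · have h1 : k + 1 ≤ w := by omega
    calc (k + 1) * N * 2 ^ (k * a * A) ≤ w * n * 2 ^ w :=
          Nat.mul_le_mul (Nat.mul_le_mul h1 hNle) (Nat.pow_le_pow_right (by norm_num) hkw')
      _ = n * w * 2 ^ w := by ring
  · set L : ℝ := Real.logb 2 a with hL
    have ha1 : (1 : ℝ) ≤ (a : ℝ) := by exact_mod_cast ha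
    have ha0 : (0 : ℝ) < (a : ℝ) := by linarith
    have hL0 : 0 ≤ L := Real.logb_nonneg (by norm_num) ha1
    have haL : (2 : ℝ) ^ L = a := Real.rpow_logb (by norm_num) (by norm_num) ha0
    have hAr : (2 : ℝ) ≤ (A : ℝ) := by exact_mod_cast hA
    -- the first factor
    have hb : 1 + a * 2 ^ (A - 1) ≤ a * 2 ^ A := by
      have h1 : 2 ^ A = 2 ^ (A - 1) * 2 := by
        rw [← pow_succ]; congr 1; omega
      have h2 : 1 ≤ 2 ^ (A - 1) := Nat.one_le_two_pow
      have h3 : 1 ≤ a * 2 ^ (A - 1) := Nat.mul_pos (by omega) (by omega)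
      rw [h1]
      have h4 : a * (2 ^ (A - 1) * 2) = a * 2 ^ (A - 1) + a * 2 ^ (A - 1) := by ring
      omega
    have hb' : (((1 + a * 2 ^ (A - 1) : ℕ)) : ℝ) ≤ (2 : ℝ) ^ ((A : ℝ) + L) := by
      rw [Real.rpow_add (by norm_num), haL, Real.rpow_natCast]
      have h1 : (((1 + a * 2 ^ (A - 1) : ℕ)) : ℝ) ≤ ((a * 2 ^ A : ℕ) : ℝ) := by exact_mod_cast hb
      refine le_trans h1 (le_of_eq ?_)
      push_cast
      ring
    have hf1 : ((((1 + a * 2 ^ (A - 1)) ^ N : ℕ)) : ℝ) ≤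
        (2 : ℝ) ^ ((n : ℝ) * (1 + L) / a) := by
      have h1 : ((((1 + a * 2 ^ (A - 1)) ^ N : ℕ)) : ℝ) ≤ ((2 : ℝ) ^ ((A : ℝ) + L)) ^ N := by
        rw [Nat.cast_pow]
        exact pow_le_pow_left₀ (Nat.cast_nonneg _) hb' N
      refine le_trans h1 ?_
      rw [← Real.rpow_natCast, ← Real.rpow_mul (by norm_num)]
      refine Real.rpow_le_rpow_of_exponent_le (by norm_num) ?_
      have h2 : (N : ℝ) * ((a : ℝ) * A) ≤ n := by exact_mod_cast hNn
      rw [le_div_iff₀ ha0]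
      have h3 : 0 ≤ (N : ℝ) := Nat.cast_nonneg _
      have h4 : (A : ℝ) + L ≤ (A : ℝ) * (1 + L) := by nlinarith
      calc ((A : ℝ) + L) * N * a = (N * a) * ((A : ℝ) + L) := by ring
        _ ≤ (N * a) * ((A : ℝ) * (1 + L)) :=
            mul_le_mul_of_nonneg_left h4 (mul_nonneg h3 ha0.le)
        _ = (N * (a * A)) * (1 + L) := by ring
        _ ≤ n * (1 + L) := mul_le_mul_of_nonneg_right h2 (by linarith)
    have hf2 : (((2 ^ (k * a * A) * (k * a * A + 1) : ℕ)) : ℝ) ≤ (2 : ℝ) ^ ((2 : ℝ) * w) := by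
      have h1 : 2 ^ (k * a * A) * (k * a * A + 1) ≤ 2 ^ w * 2 ^ w := by
        refine Nat.mul_le_mul (Nat.pow_le_pow_right (by norm_num) hkw') ?_
        refine le_trans (Nat.lt_two_pow_self (n := k * a * A)) ?_
        exact Nat.pow_le_pow_right (by norm_num) hkw'
      have h2 : (((2 ^ (k * a * A) * (k * a * A + 1) : ℕ)) : ℝ) ≤ ((2 ^ w * 2 ^ w : ℕ) : ℝ) := by
        exact_mod_cast h1
      refine le_trans h2 (le_of_eq ?_)
      push_cast
      rw [← pow_add, ← Real.rpow_natCast]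
      congr 1
      push_cast
      ring
    rw [Real.rpow_add (by norm_num)]
    have h3 : (((1 + a * 2 ^ (A - 1)) ^ N * 2 ^ (k * a * A) * (k * a * A + 1) : ℕ) : ℝ) =
        ((((1 + a * 2 ^ (A - 1)) ^ N : ℕ)) : ℝ) * (((2 ^ (k * a * A) * (k * a * A + 1) : ℕ)) : ℝ) := by
      rw [← Nat.cast_mul, Nat.mul_assoc]
    rw [h3]
    exact mul_le_mul hf1 hf2 (Nat.cast_nonneg _) (Real.rpow_nonneg (by norm_num) _)

end Pool.Agent.H20.SD
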