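import Pool.Agent.H97.SD.Targets

/-! Module STR of the project SD: a refutation has a strategy. -/

set_option autoImplicit false

open Finset

namespace Pool.Agent.H20.SD

open Pool.Agent.H97.SD

theorem pf_STR : P_STR := by
  classical
  intro V _ _ F P D hR
  obtain ⟨h0, ρ, hρ, hstep⟩ := hR
  have h1 : ∀ C : Clause V, ∃ (x : V) (g : Bool → Clause V), C ∈ P → (∃ A ∈ F, A ⊆ C) ∨
      ∀ s : Bool, g s ∈ P ∧ ρ (g s) < ρ C ∧ g s ⊆ insert (x, !s) C := by
    intro C
    by_cases hC : C ∈ P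
    · rcases hstep C hC with h | ⟨x, C₀, hC₀, C₁, hC₁, hr₀, hr₁, hs₀, hs₁⟩
      · exact ⟨Classical.arbitrary V, fun _ => ∅, fun _ => Or.inl h⟩
      · refine ⟨x, fun s => if s = true then C₁ else C₀, fun _ => Or.inr ?_⟩
        intro s
        cases s
        · exact ⟨hC₀, hr₀, hs₀⟩
        · exact ⟨hC₁, hr₁, hs₁⟩
    · exact ⟨Classical.arbitrary V, fun _ => ∅, fun h => absurd h hC⟩
  choose q nx hq using h1
  exact ⟨ρ, q, nx, hρ, fun C hC => hq C hC⟩

end Pool.Agent.H20.SD
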